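import Pool.Agent.R530.PndCount

/-!
# The increments of the records of `S(n) √n` on odd primitive non-deficient numbers are unbounded

Sketch.  Let `σ` be twice the supremum of `∏ p² / (p² - 1)` over finite sets of odd primes with
deficient product.  If `q ^ a` is a prime power component of an odd primitive non-deficient `n`,
then `H(n) (1 - q ^ (-a)) ≤ σ`, so that all components are at most `σ / θ + 1` when
`H(n) ≥ σ + θ`.  Rankin's method shows that there are very few such `n`.  On the other hand, an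
exchange argument for near-optimal sets together with the prime number theorem yields odd
primitive non-deficient numbers `n` with `H(n) ≥ σ + 10 / q²` and `log n ≥ (q / 200) log q`, with
`q` arbitrarily large.  If the increments were bounded by `C`, then the record below such an `n`
would force about `√n / q²` records `m ≤ n` with `H(m) ≥ σ + 3 / q²`, which is too many.
-/

set_option autoImplicit false
set_option maxHeartbeats 4000000

namespace Pool.Agent.Results.MP_40f968_nt.UnboundedIncrements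

open Finset Filter Pool.Agent.R530.Pnd

/-- every odd primitive non-deficient number is dominated by a record -/
lemma exists_record (n : ℕ) : Odd n → PrimitiveNonDeficient n →
    ∃ b ∈ B₂, b ≤ n ∧ g n ≤ g b := by
  induction n using Nat.strong_induction_on with
  | _ n ih =>
    intro hodd hn
    by_cases hrec : n ∈ B₂
    · exact ⟨n, hrec, le_refl _, le_refl _⟩
    · have hex : ∃ k : ℕ, k < n ∧ Odd k ∧ PrimitiveNonDeficient k ∧ g n ≤ g k := by
        by_contra hno
        push Not at hno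
        exact hrec ⟨hodd, hn, fun k hk hko hkp => hno k hk hko hkp⟩
      obtain ⟨k, hk, hko, hkp, hkg⟩ := hex
      obtain ⟨b, hb, hbk, hbg⟩ := ih k hk hko hkp
      exact ⟨b, hb, by omega, hkg.trans hbg⟩

/-- the effect of bounded increments -/
lemma record_bound (C : ℝ) (hC : 0 ≤ C)
    (hinc : ∀ m n : ℕ, m ∈ B₂ → n ∈ B₂ → m < n → (∀ k, m < k → k < n → k ∉ B₂) → g n - g m ≤ C)
    (N : ℕ) (τ : ℝ) (hτ : 2 ≤ τ) (E : Finset ℕ)
    (hE : ∀ m : ℕ, Odd m → PrimitiveNonDeficient m → m ≤ N → τ ≤ H m → m ∈ E) :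
    ∀ b : ℕ, b ∈ B₂ → b ≤ N → g b ≤ C * ((E.filter (· ≤ b)).card : ℝ) +
      (|g (sInf B₂)| + (τ - 2) * Real.sqrt N) := by
  intro b
  induction b using Nat.strong_induction_on with
  | _ b ih =>
    intro hb hbN
    have hs : Real.sqrt b ≤ Real.sqrt N := Real.sqrt_le_sqrt (by exact_mod_cast hbN)
    have hs0 : 0 ≤ Real.sqrt b := Real.sqrt_nonneg _
    have hcard : 0 ≤ C * ((E.filter (· ≤ b)).card : ℝ) := mul_nonneg hC (Nat.cast_nonneg _)
    have hM : 0 ≤ (τ - 2) * Real.sqrt N := mul_nonneg (by linarith) (Real.sqrt_nonneg _)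
    rcases lt_or_ge (H b) τ with hlt | hge
    · have h1 : g b ≤ (τ - 2) * Real.sqrt N := by
        unfold g S
        calc (H b - 2) * Real.sqrt b ≤ (τ - 2) * Real.sqrt b := by
              apply mul_le_mul_of_nonneg_right _ hs0
              linarith
          _ ≤ (τ - 2) * Real.sqrt N := mul_le_mul_of_nonneg_left hs (by linarith)
      have h2 : 0 ≤ |g (sInf B₂)| := abs_nonneg _
      linarith
    · have hbE : b ∈ E := hE b hb.1 hb.2.1 hbN hge
      classical
      by_cases hprev : ∃ k, k < b ∧ k ∈ B₂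
      · obtain ⟨k, hk, hkB⟩ := hprev
        have hne : ((range b).filter (fun k => k ∈ B₂)).Nonempty :=
          ⟨k, mem_filter.mpr ⟨mem_range.mpr hk, hkB⟩⟩
        set c := ((range b).filter (fun k => k ∈ B₂)).max' hne with hc
        have hcm := max'_mem _ hne
        rw [← hc, mem_filter, mem_range] at hcm
        have hcons : ∀ k, c < k → k < b → k ∉ B₂ := by
          intro k hck hkb hkB
          have := le_max' _ k (mem_filter.mpr ⟨mem_range.mpr hkb, hkB⟩)
          rw [← hc] at this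
          omega
        have h1 := hinc c b hcm.2 hb hcm.1 hcons
        have h2 := ih c hcm.1 hcm.2 (by omega)
        have h3 : (E.filter (· ≤ c)).card + 1 ≤ (E.filter (· ≤ b)).card := by
          have h4 : insert b (E.filter (· ≤ c)) ⊆ E.filter (· ≤ b) := by
            intro x hx
            rw [mem_insert, mem_filter] at hx
            rw [mem_filter]
            rcases hx with rfl | hx
            · exact ⟨hbE, le_refl _⟩
            · exact ⟨hx.1, by omega⟩
          have h5 := card_le_card h4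
          rw [card_insert_of_notMem] at h5
          · exact h5
          · rw [mem_filter]
            omega
        have h4 : ((E.filter (· ≤ c)).card : ℝ) + 1 ≤ ((E.filter (· ≤ b)).card : ℝ) := by
          exact_mod_cast h3
        have h5 := mul_le_mul_of_nonneg_left h4 hC
        linarith
      · push Not at hprev
        have h1 : sInf B₂ = b := by
          apply le_antisymm (Nat.sInf_le hb)
          have h2 := Nat.sInf_mem (⟨b, hb⟩ : B₂.Nonempty)
          by_contra h3
          push Not at h3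
          exact hprev _ h3 h2
        rw [h1]
        have h2 := le_abs_self (g b)
        linarith

/-- the number of `m ≤ n` with `H(m) ≥ σ + 3 / q²` -/
lemma card_E : ∃ q₀ : ℕ, ∀ q : ℕ, q₀ ≤ q → ∀ n : ℕ, 1 ≤ n →
    (q : ℝ) / 200 * Real.log q ≤ Real.log n → ∀ E : Finset ℕ,
    (∀ m ∈ E, Odd m ∧ PrimitiveNonDeficient m ∧ m ≤ n ∧ 2 * Zs + 3 / (q : ℝ) ^ 2 ≤ H m) →
    (E.card : ℝ) ≤ Real.sqrt n * Real.exp (-(q / 400)) := by
  set δ : ℝ := (1 / (800 * Real.exp 3)) ^ 2 / 2 with hδ
  have hδ0 : 0 < δ := by positivity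
  obtain ⟨y₀, hy₀⟩ := eventually_atTop.mp (card_PP_small δ hδ0)
  refine ⟨max 100 ⌈y₀⌉₊, ?_⟩
  intro q hq n hn hlog E hE
  have hq100 : (100 : ℝ) ≤ q := by
    have : 100 ≤ q := (le_max_left _ _).trans hq
    exact_mod_cast this
  have hqy : y₀ ≤ q := by
    have h1 : ⌈y₀⌉₊ ≤ q := (le_max_right _ _).trans hq
    have h2 : ((⌈y₀⌉₊ : ℕ) : ℝ) ≤ q := by exact_mod_cast h1
    linarith [Nat.le_ceil y₀]
  have hq0 : (0 : ℝ) < q := by linarith
  have hn1 : (1 : ℝ) ≤ n := by exact_mod_cast hn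
  have hlq : 4 ≤ Real.log q := by
    rw [Real.le_log_iff_exp_le hq0]
    have h1 : Real.exp 4 = Real.exp 1 ^ 4 := by
      rw [← Real.exp_nat_mul]
      norm_num
    rw [h1]
    have h2 : Real.exp 1 ≤ 2.72 := by
      have := Real.exp_one_lt_d9
      linarith
    calc Real.exp 1 ^ 4 ≤ 2.72 ^ 4 := by
          apply pow_le_pow_left₀ (Real.exp_pos 1).le h2
      _ ≤ 100 := by norm_num
      _ ≤ q := hq100
  set ε : ℝ := 1 / Real.log q with hε
  have hε0 : 0 < ε := by positivity
  have hε1 : ε ≤ 1 / 4 := one_div_le_one_div_of_le (by norm_num) hlq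
  set y : ℝ := 2 * (q : ℝ) ^ 2 with hy
  have hyq : (q : ℝ) ≤ y := by
    rw [hy]
    nlinarith
  have hy1 : 1 ≤ y := by linarith
  have hθ : (0 : ℝ) < 3 / (q : ℝ) ^ 2 := by positivity
  have hrk := rankin E n (by linarith) ⌊y⌋₊ (1 / 2 - ε) (by linarith)
    (fun m hm => ⟨(hE m hm).2.1.1.1, by exact_mod_cast (hE m hm).2.2.1⟩)
    (by
      intro m hm p hp
      obtain ⟨h1, h2, h3, h4⟩ := hE m hm
      have h5 := comp_le m h1 h2 _ hθ h4 p hp
      rw [Nat.le_floor_iff (by linarith)]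
      refine h5.trans ?_
      have h6 : 2 * Zs / (3 / (q : ℝ) ^ 2) = 2 * Zs * (q : ℝ) ^ 2 / 3 := by
        field_simp
      rw [h6, hy]
      have h7 := Zs_le_two
      have h8 : (1 : ℝ) ≤ (q : ℝ) ^ 2 := by nlinarith
      have h9 := mul_le_mul_of_nonneg_right h7 (show 0 ≤ (q : ℝ) ^ 2 by positivity)
      nlinarith)
  have hsum := sum_PP y ε hε0.le hy1
  have hPP := hy₀ y (by linarith)
  have hye : y ^ ε ≤ Real.exp 3 := by
    rw [Real.rpow_def_of_pos (by linarith)]
    apply Real.exp_le_exp.mpr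
    rw [hε, mul_one_div, div_le_iff₀ (by linarith), hy, Real.log_mul (by norm_num) (by positivity),
      Real.log_pow]
    have h1 : Real.log 2 ≤ 1 := by
      have := Real.log_two_lt_d9
      linarith
    push_cast
    linarith
  have hsq : Real.sqrt (PP ⌊y⌋₊).card ≤ q / (800 * Real.exp 3) := by
    apply Real.sqrt_le_iff.mpr
    refine ⟨by positivity, ?_⟩
    refine hPP.trans (le_of_eq ?_)
    rw [hδ, hy]
    field_simp
  have hsum2 : ∑ t ∈ PP ⌊y⌋₊, (t : ℝ) ^ (-(1 / 2 - ε)) ≤ q / 400 := by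
    refine hsum.trans ?_
    calc y ^ ε * (2 * Real.sqrt (PP ⌊y⌋₊).card) ≤ Real.exp 3 * (2 * (q / (800 * Real.exp 3))) := by
          apply mul_le_mul hye _ (by positivity) (Real.exp_pos _).le
          linarith
      _ = q / 400 := by
          field_simp
          norm_num
  have hns : (n : ℝ) ^ (1 / 2 - ε) ≤ Real.sqrt n * Real.exp (-(q / 200)) := by
    rw [Real.rpow_sub (by linarith), ← Real.sqrt_eq_rpow, div_eq_mul_inv]
    apply mul_le_mul_of_nonneg_left _ (Real.sqrt_nonneg _)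
    rw [Real.exp_neg]
    apply inv_anti₀ (Real.exp_pos _)
    rw [Real.rpow_def_of_pos (by linarith)]
    apply Real.exp_le_exp.mpr
    rw [hε, mul_one_div, le_div_iff₀ (by linarith)]
    exact hlog
  calc (E.card : ℝ) ≤ (n : ℝ) ^ (1 / 2 - ε) * Real.exp (∑ t ∈ PP ⌊y⌋₊, (t : ℝ) ^ (-(1 / 2 - ε))) :=
        hrk
    _ ≤ (Real.sqrt n * Real.exp (-(q / 200))) * Real.exp (q / 400) := by
        apply mul_le_mul hns (Real.exp_le_exp.mpr hsum2) (Real.exp_pos _).le
        positivity
    _ = Real.sqrt n * Real.exp (-(q / 400)) := by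
        rw [mul_assoc, ← Real.exp_add]
        congr 2
        ring

/-- **The increments are unbounded.** For every `C` there are consecutive elements `m < n` of `B₂`
with `g n - g m > C`. -/
theorem result : ∀ C : ℝ, ∃ m n : ℕ, m ∈ B₂ ∧ n ∈ B₂ ∧ m < n ∧
    (∀ k : ℕ, m < k → k < n → k ∉ B₂) ∧ C < g n - g m := by
  intro C0
  by_contra hcon
  push Not at hcon
  set C : ℝ := max C0 0 with hC
  have hC0 : 0 ≤ C := le_max_right _ _
  have hinc : ∀ m n : ℕ, m ∈ B₂ → n ∈ B₂ → m < n → (∀ k, m < k → k < n → k ∉ B₂) →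
      g n - g m ≤ C := fun m n h1 h2 h3 h4 => (hcon m n h1 h2 h3 h4).trans (le_max_left _ _)
  obtain ⟨q₀, hq₀⟩ := card_E
  set K : ℝ := C + |g (sInf B₂)| with hK
  have hK0 : 0 ≤ K := by positivity
  obtain ⟨q, G, hqQ, hG, hG1, hG2, hG3, hG4⟩ := construct (max (max q₀ 3) ⌈K * (6 * 400 ^ 3)⌉₊)
  have hqq₀ : q₀ ≤ q := ((le_max_left _ _).trans (le_max_left _ _)).trans hqQ.le
  have hq3 : (3 : ℝ) ≤ q := by
    have : 3 ≤ q := ((le_max_right _ _).trans (le_max_left _ _)).trans hqQ.le
    exact_mod_cast this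
  have hqK : K * (6 * 400 ^ 3) < q := by
    have h1 : ⌈K * (6 * 400 ^ 3)⌉₊ < q := (le_max_right _ _).trans_lt hqQ
    exact (Nat.le_ceil _).trans_lt (by exact_mod_cast h1)
  have hq0 : (0 : ℝ) < q := by linarith
  obtain ⟨k1, k2, k3, k4⟩ := prod_facts G hG
  set n : ℕ := ∏ p ∈ G, p with hn
  have hpnd : PrimitiveNonDeficient n := prod_pnd G hG hG1 hG2
  have hn1 : (1 : ℝ) ≤ n := by exact_mod_cast k4
  have hlogn : (q : ℝ) / 200 * Real.log q ≤ Real.log n := by
    refine hG4.trans (le_of_eq ?_)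
    rw [hn]
    push_cast
    rw [Real.log_prod]
    intro p hp
    have := (hG p hp).2
    have : (3 : ℝ) ≤ p := by exact_mod_cast this
    linarith
  classical
  set E := (range (n + 1)).filter (fun m => Odd m ∧ PrimitiveNonDeficient m ∧ m ≤ n ∧
    2 * Zs + 3 / (q : ℝ) ^ 2 ≤ H m) with hE
  have hcardE := hq₀ q hqq₀ n k4 hlogn E (fun m hm => (mem_filter.mp hm).2)
  obtain ⟨b, hb, hbn, hgb⟩ := exists_record n k3 hpnd
  have hZ := one_le_Zs
  have hv0 : (0 : ℝ) < 1 / (q : ℝ) ^ 2 := by positivity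
  have e3 : 3 / (q : ℝ) ^ 2 = 3 * (1 / (q : ℝ) ^ 2) := by ring
  have e10 : 10 / (q : ℝ) ^ 2 = 10 * (1 / (q : ℝ) ^ 2) := by ring
  have hbound := record_bound C hC0 hinc n (2 * Zs + 3 / (q : ℝ) ^ 2) (by rw [e3]; linarith) E
    (by
      intro m h1 h2 h3 h4
      rw [hE, mem_filter, mem_range]
      exact ⟨by omega, h1, h2, h3, h4⟩) b hb hbn
  have hsn : 1 ≤ Real.sqrt n := by
    rw [Real.one_le_sqrt]
    exact hn1
  have hgn : (2 * Zs + 10 / (q : ℝ) ^ 2 - 2) * Real.sqrt n ≤ g n := by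
    unfold g S
    apply mul_le_mul_of_nonneg_right _ (Real.sqrt_nonneg _)
    rw [k2]
    linarith
  have hfil : ((E.filter (· ≤ b)).card : ℝ) ≤ E.card := by
    exact_mod_cast card_le_card (filter_subset _ _)
  have h1 : C * ((E.filter (· ≤ b)).card : ℝ) ≤ C * (Real.sqrt n * Real.exp (-(q / 400))) :=
    mul_le_mul_of_nonneg_left (hfil.trans hcardE) hC0
  -- `√n` is large
  have hlogq : 1 ≤ Real.log q := by
    rw [Real.le_log_iff_exp_le hq0]
    have := Real.exp_one_lt_d9
    linarith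
  have hsqrt : 1 ≤ Real.sqrt n * Real.exp (-(q / 400)) := by
    have h2 : Real.exp (q / 400) ≤ Real.sqrt n := by
      rw [Real.sqrt_eq_rpow, Real.rpow_def_of_pos (by linarith)]
      apply Real.exp_le_exp.mpr
      have h3 : (q : ℝ) / 200 * 1 ≤ (q : ℝ) / 200 * Real.log q := by gcongr
      linarith
    rw [Real.exp_neg, ← div_eq_mul_inv, one_le_div (Real.exp_pos _)]
    exact h2
  have h2 : |g (sInf B₂)| ≤ |g (sInf B₂)| * (Real.sqrt n * Real.exp (-(q / 400))) :=
    le_mul_of_one_le_right (abs_nonneg _) hsqrt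
  have h3 : 7 * (1 / (q : ℝ) ^ 2) * Real.sqrt n ≤ K * (Real.sqrt n * Real.exp (-(q / 400))) := by
    have h4 : (2 * Zs + 10 / (q : ℝ) ^ 2 - 2) * Real.sqrt n ≤
        C * (Real.sqrt n * Real.exp (-(q / 400))) +
        (|g (sInf B₂)| * (Real.sqrt n * Real.exp (-(q / 400))) +
          (2 * Zs + 3 / (q : ℝ) ^ 2 - 2) * Real.sqrt n) := by linarith
    rw [e3, e10] at h4
    rw [hK]
    linarith
  have h4 : 7 * (1 / (q : ℝ) ^ 2) ≤ K * Real.exp (-(q / 400)) := by
    have h5 : 7 * (1 / (q : ℝ) ^ 2) * Real.sqrt n ≤ K * Real.exp (-(q / 400)) * Real.sqrt n := by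
      linarith
    exact le_of_mul_le_mul_right h5 (by linarith)
  have h5 : (q : ℝ) ^ 3 / (6 * 400 ^ 3) ≤ Real.exp (q / 400) := by
    have h6 := Real.pow_div_factorial_le_exp (q / 400 : ℝ) (by positivity) 3
    refine le_trans (le_of_eq ?_) h6
    have h7 : ((Nat.factorial 3 : ℕ) : ℝ) = 6 := by norm_num [Nat.factorial]
    rw [h7]
    field_simp
  rw [Real.exp_neg] at h4
  have h6 : 0 < Real.exp (q / 400 : ℝ) := Real.exp_pos _
  have h7 : 7 * (1 / (q : ℝ) ^ 2) * Real.exp (q / 400) ≤ K := by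
    rw [← div_eq_mul_inv, le_div_iff₀ h6] at h4
    exact h4
  have h8 : 7 * (1 / (q : ℝ) ^ 2) * ((q : ℝ) ^ 3 / (6 * 400 ^ 3)) ≤ K :=
    (mul_le_mul_of_nonneg_left h5 (by positivity)).trans h7
  have h9 : 7 * (1 / (q : ℝ) ^ 2) * ((q : ℝ) ^ 3 / (6 * 400 ^ 3)) = 7 * (q / (6 * 400 ^ 3)) := by
    field_simp
  rw [h9] at h8
  have h10 : K < q / (6 * 400 ^ 3) := by
    rw [lt_div_iff₀ (by norm_num)]
    exact hqK
  linarith

end Pool.Agent.Results.MP_40f968_nt.UnboundedIncrements
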